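import Pool.Agent.Lib.MP_0ccce1_co.Main

set_option autoImplicit false

namespace Pool.Agent.Results.MP_0ccce1_co.LowerBoundPi

open Pool.Agent.Lib.MP_0ccce1_co

/-- For every `ε > 0` and all large `n`, `M(n) ≥ (π/4 - 1/2 - ε) n²`. -/
theorem result : ∀ ε : ℝ, 0 < ε →
    ∃ n₀ : ℕ, ∀ n ≥ n₀, (Real.pi / 4 - 1 / 2 - ε) * (n : ℝ) ^ 2 ≤ (M n : ℝ) :=
  fun _ hε => M_lower hε

end Pool.Agent.Results.MP_0ccce1_co.LowerBoundPi
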